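import Pool.Agent.helper47.CL.SpecC

set_option autoImplicit false

namespace Pool.Agent.helper41.CL

open Finset

theorem YE (h1 : AZ_stmt) (h2 : SP_stmt) (h3 : WO_stmt) (h4 : YA_stmt) (h5 : YB_stmt) : YE_stmt := by
  intro α _ V E c p a b hG hc hE hV hpa hpb hnpa hnpb hnab hinc
  obtain ⟨d, rfl⟩ : ∃ d, c = d + 3 := ⟨c - 3, by omega⟩
  have hpV : p ∈ V := (hG _ hpa).1 (by simp)
  have haV : a ∈ V := (hG _ hpa).1 (by simp)
  have hbV : b ∈ V := (hG _ hpb).1 (by simp)
  have hne : ({p, a} : Finset α) ≠ {p, b} := by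
    intro h
    have : a ∈ ({p, b} : Finset α) := by rw [← h]; simp
    simp only [mem_insert, mem_singleton] at this
    rcases this with h' | h'
    · exact hnpa h'.symm
    · exact hnab h'
  have hfil : E.filter (fun e => p ∈ e) = {{p, a}, {p, b}} := by
    ext e
    rw [mem_filter, mem_insert, mem_singleton]
    constructor
    · rintro ⟨he, hp⟩
      exact hinc e he hp
    · rintro (rfl | rfl)
      · exact ⟨hpa, by simp⟩
      · exact ⟨hpb, by simp⟩
  have hcard1 : #(E.filter fun e => p ∉ e) = d + 3 := by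
    have := card_filter_add_card_filter_not (s := E) (fun e => p ∈ e)
    rw [hfil, card_pair hne, hE] at this
    omega
  have hG1 : Gr (V.erase p) (E.filter fun e => p ∉ e) := by
    intro e he
    rw [mem_filter] at he
    refine ⟨?_, (hG e he.1).2⟩
    intro x hx
    rw [mem_erase]
    exact ⟨fun h => he.2 (h ▸ hx), (hG e he.1).1 hx⟩
  have hV1 : #(V.erase p) = 2 * (d + 2) + 1 := by
    rw [card_erase_of_mem hpV, hV]
    omega
  have hG0 : Gr (V \ {p, a, b}) (E.filter fun e => p ∉ e ∧ a ∉ e ∧ b ∉ e) := by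
    intro e he
    rw [mem_filter] at he
    refine ⟨?_, (hG e he.1).2⟩
    intro x hx
    rw [mem_sdiff, mem_insert, mem_insert, mem_singleton]
    refine ⟨(hG e he.1).1 hx, ?_⟩
    rintro (h | h | h)
    · exact he.2.1 (h ▸ hx)
    · exact he.2.2.1 (h ▸ hx)
    · exact he.2.2.2 (h ▸ hx)
  have hV0 : #(V \ {p, a, b}) = 2 * (d + 1) + 1 := by
    have hs : ({p, a, b} : Finset α) ⊆ V := by
      intro x hx
      simp only [mem_insert, mem_singleton] at hx
      rcases hx with rfl | rfl | rfl <;> assumption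
    have h3c : #({p, a, b} : Finset α) = 3 := card_eq_three.2 ⟨p, a, b, hnpa, hnpb, hnab, rfl⟩
    rw [card_sdiff_of_subset hs, hV, h3c]
    omega
  have hSP := h2 α V E p (d + 2) hpV
  have hWO := h3 α V E p a b (d + 1) haV hbV hnpa hnpb hnab hinc
  have hA := h4 α (V.erase p) (E.filter fun e => p ∉ e) (d + 2) hG1 (by omega) (by rw [hcard1]) hV1
  have e1 : d + 2 + 1 = d + 3 := rfl
  have e2 : d + 1 + 2 = d + 3 := rfl
  rw [e1] at hSP
  rw [e2] at hWO
  have e3 : d + 2 - 1 = d + 1 := rfl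
  rw [e3] at hA
  have e4 : d + 3 - 1 = d + 2 := rfl
  rw [e4]
  constructor
  · intro hcd
    have hZ := h1 α (V \ {p, a, b}) (E.filter fun e => p ∉ e ∧ a ∉ e ∧ b ∉ e) (d + 1) hG0 (by omega) (by omega)
    have e5 : 2 ^ (d + 2) = 2 ^ (d + 1) + 2 ^ (d + 1) := by rw [pow_succ 2 (d + 1)]; ring
    omega
  · rintro hcd ⟨y, hyV, hyp, hy⟩
    have hB := h5 α (V.erase p) (E.filter fun e => p ∉ e) (d + 2) y hG1 (by omega) (by rw [hcard1]) hV1
      (mem_erase.2 ⟨hyp, hyV⟩) (by
        intro e he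
        rw [mem_filter] at he
        exact hy e he.1 he.2)
    have hZ := h4 α (V \ {p, a, b}) (E.filter fun e => p ∉ e ∧ a ∉ e ∧ b ∉ e) (d + 1) hG0 (by omega) (by omega) hV0
    have e5 : d + 2 - 2 = d := rfl
    have e6 : d + 1 - 1 = d := rfl
    rw [e5] at hB
    rw [e6] at hZ
    have e7 : 2 ^ (d + 2) = 4 * 2 ^ d := by rw [pow_add]; ring
    omega

end Pool.Agent.helper41.CL
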