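import Pool.Agent.helper47.CL.SpecC

set_option autoImplicit false

namespace Pool.Agent.helper41.CL

open Finset

theorem YU : YU_stmt := by
  intro k hk
  obtain ⟨r, rfl⟩ : ∃ r, k = r + 3 := ⟨k - 3, by omega⟩
  unfold target partSize
  have h1 : r + 3 - 1 = r + 2 := by omega
  rw [h1]
  have p1 : (2 * (r + 3) + (r + 2) - 1) / (r + 2) = 3 := by
    have : 2 * (r + 3) + (r + 2) - 1 = (r + 2) * 3 + 1 := by omega
    rw [this, Nat.mul_add_div (by omega), Nat.div_eq_of_lt (by omega)]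
  have p2 : (2 * (r + 3) + (r + 2) - 2) / (r + 2) = 3 := by
    have : 2 * (r + 3) + (r + 2) - 2 = (r + 2) * 3 := by omega
    rw [this, Nat.mul_div_cancel_left _ (by omega)]
  have p3 : ∀ i ∈ Icc 3 (r + 2), (2 * (r + 3) + (r + 2) - i) / (r + 2) = 2 := by
    intro i hi
    rw [mem_Icc] at hi
    obtain ⟨j, hj⟩ : ∃ j, j + i = r + 2 := ⟨r + 2 - i, by omega⟩
    have : 2 * (r + 3) + (r + 2) - i = (r + 2) * 2 + (j + 2) := by omega
    rw [this, Nat.mul_add_div (by omega), Nat.div_eq_of_lt (by omega)]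
  rw [p1, p2, prod_congr rfl p3, prod_const, Nat.card_Icc]
  have e : r + 2 + 1 - 3 = r := by omega
  rw [e]
  have e2 : 3 + 3 - 2 = 2 ^ 2 := by norm_num
  rw [e2, ← pow_add]
  congr 1
  omega

end Pool.Agent.helper41.CL
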